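import Pool.Agent.Helper65_CM.Regk
import Pool.Agent.Helper18_CM.Lau
import Pool.Agent.Helper95_CM.StE
import Pool.Agent.Helper95_CM.Asm

/-!
# Module ULA: unipotent lattices exist after `t ↦ t^D`
-/

set_option autoImplicit false
set_option linter.unusedSectionVars false

noncomputable section

namespace Pool.Agent.Helper95_CM.H66

open Polynomial

/-! ### characteristic polynomial of a multiple -/

lemma list_prod_scale {F : Type} [Field F] (c x : F) (hc : c ≠ 0) (al : List F) :
    c ^ al.length * (al.map fun a => x / c - a).prod = (al.map fun a => x - c * a).prod := by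
  induction al with
  | nil => simp
  | cons a al ih =>
    simp only [List.map_cons, List.prod_cons, List.length_cons]
    rw [← ih, pow_succ]
    have : x - c * a = c * (x / c - a) := by field_simp
    rw [this]
    ring

lemma charpoly_smul_roots {F : Type} [Field F] [CharZero F] {I : Type} [Fintype I]
    [DecidableEq I] (N : Matrix I I F) (c : F) (hc : c ≠ 0) (al : List F)
    (h : N.charpoly = (al.map fun a => X - C a).prod) :
    (c • N).charpoly = (al.map fun a => X - C (c * a)).prod := by
  have hlen : al.length = Fintype.card I := by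
    have h1 := congrArg natDegree h
    rw [Matrix.charpoly_natDegree_eq_dim] at h1
    have h2 : (al.map fun a => X - C a).prod
        = (Multiset.map (fun a => X - C a) (al : Multiset F)).prod := by
      simp
    rw [h2, natDegree_multiset_prod_X_sub_C_eq_card] at h1
    rw [h1]
    simp
  apply Polynomial.funext
  intro x
  rw [Matrix.eval_charpoly]
  have h1 : Matrix.scalar I x - c • N = c • (Matrix.scalar I (x / c) - N) := by
    ext i j
    by_cases hij : i = j
    · subst hij
      simp only [Matrix.sub_apply, Matrix.smul_apply, Matrix.scalar_apply, Matrix.diagonal_apply_eq,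
        smul_eq_mul]
      field_simp
    · simp only [Matrix.sub_apply, Matrix.smul_apply, Matrix.scalar_apply, smul_eq_mul,
        Matrix.diagonal_apply_ne _ hij]
      ring
  rw [h1, Matrix.det_smul, ← Matrix.eval_charpoly, h, ← hlen, eval_list_prod, eval_list_prod,
    List.map_map, List.map_map]
  have h2 : (al.map (eval (x / c) ∘ fun a => X - C a)) = al.map fun a => x / c - a := by
    apply List.map_congr_left
    intro a _
    simp
  have h3 : (al.map (eval x ∘ fun a => X - C (c * a))) = al.map fun a => x - c * a := by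
    apply List.map_congr_left
    intro a _
    simp
  rw [h2, h3, list_prod_scale c x hc]

lemma coe_list {α β : Type} (g : α → β) (al : List α) :
    (do let a ← al; pure (g a) : List β) = al.map g := by
  induction al with
  | nil => rfl
  | cons a al ih => simpa [List.flatMap_cons] using ih

/-! ### substitution `t ↦ t^D` -/

section tsub
variable {q D : ℕ} {R S : Type} [CommRing R] [CommRing S]

lemma tsub_coeff (hD : 0 < D) (x : LL q R) (m : ℤ) :
    (tsub q R D x).coeff ((D : ℤ) * m) = x.coeff m := by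
  have := hphi_coeff (R := OO q R) hD x m
  rw [nsmul_eq_mul] at this
  exact this

lemma tsub_coeff_ne (hD : 0 < D) (x : LL q R) (m : ℤ) (h : ¬ (D : ℤ) ∣ m) :
    (tsub q R D x).coeff m = 0 := by
  apply hphi_coeff_ne hD
  intro g' hg'
  apply h
  rw [← hg', nsmul_eq_mul]
  exact dvd_mul_right _ _

lemma thLt_tsub (hD : 0 < D) (x : LL q R) :
    thLt q R (tsub q R D x) = (D : LL q R) * tsub q R D (thLt q R x) := by
  apply HahnSeries.ext
  funext m
  rw [tht_coeff, natCast_mul_coeff]
  by_cases h : (D : ℤ) ∣ m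
  · obtain ⟨k, rfl⟩ := h
    rw [tsub_coeff hD, tsub_coeff hD, tht_coeff]
    push_cast
    ring
  · rw [tsub_coeff_ne hD _ _ h, tsub_coeff_ne hD _ _ h, mul_zero, mul_zero]

lemma mL_tsub (hD : 0 < D) (g : R →+* S) (x : LL q R) :
    mL q g (tsub q R D x) = tsub q S D (mL q g x) := by
  apply HahnSeries.ext
  funext m
  change mO q g ((tsub q R D x).coeff m) = _
  by_cases h : (D : ℤ) ∣ m
  · obtain ⟨k, rfl⟩ := h
    rw [tsub_coeff hD, tsub_coeff hD]
    rfl
  · rw [tsub_coeff_ne hD _ _ h, tsub_coeff_ne hD _ _ h, map_zero]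

lemma ordGe_tsub (hD : 0 < D) {x : LL q R} (hx : OrdGe 0 x) : OrdGe 0 (tsub q R D x) := by
  intro m hm
  by_cases h : (D : ℤ) ∣ m
  · obtain ⟨k, rfl⟩ := h
    rw [tsub_coeff hD]
    apply hx
    by_contra hk
    rw [not_lt] at hk
    have : (0 : ℤ) ≤ (D : ℤ) * k := by positivity
    omega
  · exact tsub_coeff_ne hD _ _ h

lemma inG_tsub {K : Type} [Field K] (hD : 0 < D) {x : LL q K} (hx : InG x) :
    InG (tsub q K D x) := by
  obtain ⟨⟨p0, h0⟩, h1⟩ := hx
  refine ⟨⟨p0, fun p _ hp ι => ?_⟩, fun m => ?_⟩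
  · obtain ⟨y, hy⟩ := h0 p hp ι
    exact ⟨tsub q _ D y, by rw [mL_tsub hD, mL_tsub hD, hy]⟩
  · by_cases h : (D : ℤ) ∣ m
    · obtain ⟨k, rfl⟩ := h
      rw [tsub_coeff hD]
      exact h1 k
    · rw [tsub_coeff_ne hD _ _ h]
      exact (kF q K).zero_mem

end tsub

open Pool.Agent.Helper65_CM

theorem ula (hFrk : FrkStmt) (hDsub : DsubStmt) (hRegk : RegkStmt) (hGauk : GaukStmt)
    (hChik : ChikStmt) (hExpk : ExpkStmt) (hShear : ShearStmt) (hSpg : SpgStmt) : UlaStmt := by
  classical
  intro n M b A K _ _ f hd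
  set q := qG n M with hq
  have h1 := hFrk n M 1 b A K f hd
  obtain ⟨U1, Ui1, Q1, hG1, hP1, hL1, hU1, hUi1, hQ1⟩ := hRegk q K _ _ _ h1
  have h2 := (hGauk q K _ _ _ _ _ _ h1 hU1 hUi1 hG1).1
  obtain ⟨χ, -, hχ⟩ := hChik q K _ _ Q1 h2 hP1
  obtain ⟨al, hal⟩ := hExpk q K _ _ Q1 χ h2 hP1 hχ
  have hal' : χ = (al.map fun a : ℚ => X - C (a : K)).prod := by
    rw [hal, coe_list, List.map_map]
    rfl
  refine ⟨(al.map Rat.den).prod, ?_, ?_⟩
  · apply Nat.one_le_iff_ne_zero.mpr
    rw [Ne, List.prod_eq_zero_iff]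
    intro h
    obtain ⟨a, -, ha⟩ := List.mem_map.mp h
    exact a.den_nz ha
  intro D hD hdvd
  have hD0 : 0 < D := hD
  have hdD : GData n M D K f := ⟨hd.hn, hd.hM, hD, hd.deg⟩
  -- the pulled back lattice
  set Q2 : Matrix A.Bas A.Bas (LL q K) := (D : LL q K) • Q1.map (tsub q K D) with hQ2
  have hRm := hDsub n M D b A K f hdD
  have hG2 : Gauge (thLt q K) (U1.map (tsub q K D)) (Ui1.map (tsub q K D))
      (Rm A (thLt q K) (cgen D f)) Q2 := by
    refine ⟨?_, ?_, ?_⟩
    · rw [← Matrix.map_mul, hG1.inv, Matrix.map_one _ (map_zero _) (map_one _)]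
    · rw [← Matrix.map_mul, hG1.inv', Matrix.map_one _ (map_zero _) (map_one _)]
    · have e1 := congrArg (fun X : Matrix A.Bas A.Bas (LL q K) => X.map (tsub q K D)) hG1.eq
      rw [Matrix.map_mul] at e1
      rw [hRm, hQ2, Matrix.mul_smul, ← e1, Matrix.smul_mul, ← Matrix.map_mul]
      ext1 i j
      simp only [Matrix.add_apply, Matrix.map_apply, Matrix.smul_apply, smul_eq_mul, map_add,
        thLt_tsub hD0]
      ring
  -- the field of the elements of the working field
  obtain ⟨⟨S, hS⟩, -, -, -, -, -, hth, hLP⟩ := hSpg q K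
  have hQ2S : ∀ i j, Q2 i j ∈ S := by
    intro i j
    exact S.mul_mem (natCast_mem S D) ((hS _).mpr (inG_tsub hD0 (hQ1 i j)))
  set Q0 : Matrix A.Bas A.Bas (LaurentSeries (kF q K)) :=
    Matrix.of fun i j => low q K (Q2 i j) ((hS _).mp (hQ2S i j)).2 with hQ0
  have hQQ : Q0.map (inc q K) = Q2 := by
    ext1 i j
    exact inc_low q K _ _
  have : CharZero (OO q K) := charZero_of_injective_ringHom (kO q K).injective
  have : CharZero (kF q K) := inferInstance
  have hP2 : PolF Q2 := by
    intro i j
    have : OrdGe 0 ((D : LL q K) * tsub q K D (Q1 i j)) := by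
      intro m hm
      rw [natCast_mul_coeff, ordGe_tsub hD0 (hP1 i j) m hm, mul_zero]
    exact this
  have hP0 : PolF Q0 := by
    intro i j
    rw [← ordGe_inc]
    have : inc q K (Q0 i j) = Q2 i j := inc_low q K _ _
    rw [this]
    exact hP2 i j
  have hm2 : mco 0 Q2 = (D : OO q K) • mco 0 Q1 := by
    ext1 i j
    change ((D : LL q K) * tsub q K D (Q1 i j)).coeff 0 = (D : OO q K) * (Q1 i j).coeff 0
    rw [natCast_mul_coeff]
    congr 1
    have := tsub_coeff hD0 (Q1 i j) 0
    rwa [mul_zero] at this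
  -- the integral exponents
  have hint : ∀ a ∈ al, (D : ℚ) * a = (((D / a.den : ℕ) : ℤ) * a.num : ℤ) := by
    intro a ha
    have hda : a.den ∣ D := (List.dvd_prod (List.mem_map_of_mem ha)).trans hdvd
    obtain ⟨e, he⟩ := hda
    have hne : (a.den : ℚ) ≠ 0 := by exact_mod_cast a.den_nz
    rw [he, Nat.mul_div_cancel_left _ a.den_pos]
    push_cast
    have h3 : (a.den : ℚ) * a = a.num := by
      rw [mul_comm]
      exact Rat.mul_den_eq_num a
    calc (a.den : ℚ) * e * a = e * ((a.den : ℚ) * a) := by ring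
      _ = _ := by rw [h3]
  have hcp : (mco 0 Q0).charpoly = ((al.map fun a : ℚ => ((D / a.den : ℕ) : ℤ) * a.num).map
      fun a : ℤ => X - C (a : kF q K)).prod := by
    apply Polynomial.map_injective (kF q K).subtype (kF q K).subtype.injective
    rw [← Matrix.charpoly_map]
    have e1 : (kF q K).subtype.mapMatrix (mco 0 Q0) = mco 0 Q2 := by
      ext1 i j
      rfl
    have e1' : (mco 0 Q0).map (kF q K).subtype = mco 0 Q2 := e1
    rw [e1', hm2]
    have e2 : (mco 0 Q1).charpoly
        = ((al.map fun a : ℚ => kO q K (a : K)).map fun a => X - C a).prod := by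
      rw [hχ, hal', Polynomial.map_list_prod, List.map_map, List.map_map]
      congr 1
      apply List.map_congr_left
      intro a _
      simp
    have hDne : (D : OO q K) ≠ 0 := by
      exact_mod_cast hD0.ne'
    rw [charpoly_smul_roots _ _ hDne _ e2, Polynomial.map_list_prod, List.map_map, List.map_map,
      List.map_map]
    congr 1
    apply List.map_congr_left
    intro a ha
    simp only [Function.comp_apply, Polynomial.map_sub, Polynomial.map_X, Polynomial.map_C]
    congr 2
    have e3 := hint a ha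
    have e4 : (D : K) * (a : K) = ((((D / a.den : ℕ) : ℤ) * a.num : ℤ) : K) := by
      have := congrArg (fun x : ℚ => (x : K)) e3
      push_cast at this ⊢
      exact this
    have e5 := congrArg (kO q K) e4
    rw [map_mul, map_natCast, map_intCast] at e5
    rw [e5]
    simp
  obtain ⟨U, Ui, Q', hG, hpol, hnil, hlp⟩ := hShear (kF q K) A.Bas Q0
    (al.map fun a : ℚ => ((D / a.den : ℕ) : ℤ) * a.num) hP0 (by
      rw [hcp, coe_list (fun a : ℤ => (a : kF q K)), List.map_map (g := fun a => X - C a)]
      rfl)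
  have hinv : U.map (inc q K) * Ui.map (inc q K) = 1 := by
    rw [← Matrix.map_mul, hG.inv, Matrix.map_one _ (map_zero _) (map_one _)]
  have hinv' : Ui.map (inc q K) * U.map (inc q K) = 1 := by
    rw [← Matrix.map_mul, hG.inv', Matrix.map_one _ (map_zero _) (map_one _)]
  have heq : (U.map (inc q K)).map (thLt q K) + Q2 * U.map (inc q K) =
      U.map (inc q K) * Q'.map (inc q K) := by
    have h1 := congrArg
      (fun X : Matrix A.Bas A.Bas (LaurentSeries (kF q K)) => X.map (inc q K)) hG.eq
    simp only [Matrix.map_mul] at h1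
    rw [← h1, ← hQQ]
    ext1 i j
    simp only [Matrix.add_apply, Matrix.map_apply, map_add, tht_inc]
    congr 1
    simp [Matrix.mul_apply, map_sum]
  have hUG : ∀ i j, InG (U.map (inc q K) i j) := by
    intro i j
    apply hLP
    · intro m
      exact (((U i j).coeff m : kF q K)).2
    · obtain ⟨a, ha⟩ := hlp
      refine ⟨a, fun m hm => ?_⟩
      have := ha i j m hm
      rw [Matrix.map_apply, inc_coeff, this]
      rfl
  have hUS : ∀ i j, U.map (inc q K) i j ∈ S := fun i j => (hS _).mpr (hUG i j)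
  have hUiS := inv_mem S _ _ hinv hinv' hUS
  have hQ'S : ∀ i j, Q'.map (inc q K) i j ∈ S := by
    have h1 : Q'.map (inc q K) = Ui.map (inc q K) *
        ((U.map (inc q K)).map (thLt q K) + Q2 * U.map (inc q K)) := by
      rw [heq, ← Matrix.mul_assoc, hinv', Matrix.one_mul]
    intro i j
    rw [h1]
    apply Subfield.sum_mem
    intro a _
    apply S.mul_mem (hUiS i a)
    apply S.add_mem
    · exact (hS _).mpr (hth _ (hUG a j))
    · apply Subfield.sum_mem
      intro b _
      exact S.mul_mem (hQ2S a b) (hUS b j)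
  have hG3 : Gauge (thLt q K) (U.map (inc q K)) (Ui.map (inc q K)) Q2 (Q'.map (inc q K)) :=
    ⟨hinv, hinv', heq⟩
  refine ⟨U1.map (tsub q K D) * U.map (inc q K), Ui.map (inc q K) * Ui1.map (tsub q K D),
    Q'.map (inc q K), ⟨?_, ?_, ?_, ?_, ?_, ?_, ?_⟩⟩
  · exact H18.gauge_trans H18.tht_der hG2 hG3
  · intro i j
    apply (hS _).mp
    rw [Matrix.mul_apply]
    apply Subfield.sum_mem
    intro a _
    exact S.mul_mem ((hS _).mpr (inG_tsub hD0 (hU1 i a))) (hUS a j)
  · intro i j
    apply (hS _).mp
    rw [Matrix.mul_apply]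
    apply Subfield.sum_mem
    intro a _
    exact S.mul_mem (hUiS i a) ((hS _).mpr (inG_tsub hD0 (hUi1 a j)))
  · exact fun i j => (hS _).mp (hQ'S i j)
  · intro i j
    exact (ordGe_inc q K _ _).mpr (hpol i j)
  · have e1 : mco 0 (Q'.map (inc q K)) = (mco 0 Q').map (kF q K).subtype := by
      ext1 i j
      rfl
    rw [e1]
    have e2 : (mco 0 Q').map (kF q K).subtype = (kF q K).subtype.mapMatrix (mco 0 Q') := rfl
    rw [e2, ← map_pow, hnil, map_zero]
  · apply H18.lpol_mul
    · obtain ⟨a, ha⟩ := hL1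
      refine ⟨D * |a|, fun i j m hm => ?_⟩
      rw [Matrix.map_apply]
      by_cases h : (D : ℤ) ∣ m
      · obtain ⟨k, rfl⟩ := h
        rw [tsub_coeff hD0]
        apply ha
        have hk : |a| < k := lt_of_mul_lt_mul_left hm (by positivity)
        exact lt_of_le_of_lt (le_abs_self a) hk
      · exact tsub_coeff_ne hD0 _ _ h
    · obtain ⟨a, ha⟩ := hlp
      refine ⟨a, fun i j m hm => ?_⟩
      have := ha i j m hm
      rw [Matrix.map_apply, inc_coeff, this]
      rfl

end Pool.Agent.Helper95_CM.H66
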